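import Pool.Agent.GT.StmtsA

/-!
Row A_GRA of the table `gt`: first part of the theorem of Graham and Rothschild for lines, from the
multidimensional Hales-Jewett theorem of Mathlib.
-/

namespace Pool.Agent.GT.H17

open Pool.Agent.GT

/-- the subspace `F` -/
def bigF {k n M : ℕ} (R : Fin n → Fin (k + 1) ⊕ Fin M) : Fin (n + 1) → Fin k ⊕ Fin (M + 1) :=
  Fin.cons (Sum.inr 0) fun j => Sum.elim
    (fun a => if h : a = Fin.last k then Sum.inr 0 else Sum.inl (a.castPred h))
    (fun t => Sum.inr t.succ) (R j)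

theorem bigF_sub {k n M : ℕ} (R : Fin n → Fin (k + 1) ⊕ Fin M) (hR : ∀ e, ∃ i, R i = Sum.inr e) :
    IsSub (bigF R) := by
  intro e
  refine Fin.cases ?_ (fun t => ?_) e
  · exact ⟨0, rfl⟩
  · obtain ⟨i, hi⟩ := hR t
    refine ⟨i.succ, ?_⟩
    unfold bigF
    rw [Fin.cons_succ, hi]
    rfl

theorem bigF_sp {k n M : ℕ} (R : Fin n → Fin (k + 1) ⊕ Fin M) (z : Fin M → Fin (k + 1)) :
    sp (up (bigF R)) (Fin.cons (Fin.last k) z) =
      (Fin.cons (Fin.last k) (fun j => (R j).elim id z) : Fin (n + 1) → Fin (k + 1)) := by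
  funext i
  refine Fin.cases ?_ (fun j => ?_) i
  · rfl
  · unfold sp up bigF
    rw [Fin.cons_succ, Fin.cons_succ]
    rcases hj : R j with a | t
    · by_cases ha : a = Fin.last k
      · simp [ha]
      · simp [ha]
    · simp

/-- the subspace `G` -/
def bigG {k M N : ℕ} (g : Fin M → Fin k ⊕ Fin N) : Fin (M + 1) → Fin k ⊕ Fin (N + 1) :=
  Fin.cons (Sum.inr 0) fun t => Sum.map id Fin.succ (g t)

theorem bigG_sub {k M N : ℕ} (g : Fin M → Fin k ⊕ Fin N) (hg : IsSub g) : IsSub (bigG g) := by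
  intro e
  refine Fin.cases ?_ (fun t => ?_) e
  · exact ⟨0, rfl⟩
  · obtain ⟨i, hi⟩ := hg t
    refine ⟨i.succ, ?_⟩
    unfold bigG
    rw [Fin.cons_succ, hi]
    rfl

theorem bigG_sp {k M N : ℕ} (g : Fin M → Fin k ⊕ Fin N) (x : Fin (N + 1) → Fin (k + 1)) :
    sp (up (bigG g)) x =
      (Fin.cons (x 0) (sp (up g) (Fin.tail x)) : Fin (M + 1) → Fin (k + 1)) := by
  funext i
  refine Fin.cases ?_ (fun j => ?_) i
  · rfl
  · rw [Fin.cons_succ]
    unfold sp up bigG
    rw [Fin.cons_succ]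
    rcases hj : g j with a | t
    · simp
    · simp [Fin.tail]

theorem a_gra : GraStmt := by
  intro k N
  induction N with
  | zero =>
    intro C _ _
    exact ⟨0, fun c => ⟨fun i => i.elim0, fun e => e.elim0, fun _ _ e => e.elim0⟩⟩
  | succ N ih =>
    intro C _ hk
    obtain ⟨M, hM⟩ := ih (Fin k → C) hk
    obtain ⟨n', hn'⟩ :=
      Combinatorics.Subspace.exists_mono_in_high_dimension_fin (Fin (k + 1)) C (Fin M)
    refine ⟨n' + 1, fun c => ?_⟩
    obtain ⟨R, c0, hR⟩ := hn' fun z => c (Fin.cons (Fin.last k) z)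
    obtain ⟨g, hg, hgc⟩ := hM fun z a => c (sp (up (bigF R.idxFun)) (Fin.cons a.castSucc z))
    have hF := bigF_sub R.idxFun R.proper
    have hG := bigG_sub g hg
    refine ⟨cmp (bigF R.idxFun) (bigG g), hF.cmp hG, fun x x' e hx hx' hag => ?_⟩
    rw [up_cmp, sp_cmp, sp_cmp, bigG_sp, bigG_sp]
    revert hx hx' hag
    refine Fin.cases ?_ (fun t => ?_) e
    · intro hx hx' _
      rw [hx.1, hx'.1, bigF_sp, bigF_sp]
      exact (hR _).trans (hR _).symm
    · intro hx hx' hag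
      have h0 : (0 : Fin (N + 1)) < t.succ := Fin.succ_pos t
      have e0 : x 0 = x' 0 := hag 0 h0
      have e1 : x 0 ≠ Fin.last k := hx.2 0 h0
      have h1 := hgc (Fin.tail x) (Fin.tail x') t
        ⟨hx.1, fun e' he' => hx.2 e'.succ (Fin.succ_lt_succ_iff.2 he')⟩
        ⟨hx'.1, fun e' he' => hx'.2 e'.succ (Fin.succ_lt_succ_iff.2 he')⟩
        (fun e' he' => hag e'.succ (Fin.succ_lt_succ_iff.2 he'))
      have h2 := congrFun h1 ((x 0).castPred e1)
      simp only [Fin.castSucc_castPred] at h2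
      rw [← e0]
      exact h2

end Pool.Agent.GT.H17
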