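import Pool.Agent.GT.StmtsF

/-!
# Squad GT, row F_SLB: the Selmer group bounds the group of points modulo doubles
-/

set_option autoImplicit false

namespace Pool.Agent.GT.F.H17

open Polynomial Pool.Agent.NJ Pool.Agent.GT.F

noncomputable section

/-- Every nonzero rational number is a squarefree integer times a square. -/
theorem sqf (c : ℚ) (hc : c ≠ 0) : ∃ d : ℤ, Squarefree d ∧ IsSquare (c * (d : ℚ)) := by
  obtain ⟨a, b, hab, ha⟩ := Nat.sq_mul_squarefree (c.num * c.den).natAbs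
  have hden : (c.den : ℚ) ≠ 0 := by exact_mod_cast c.den_ne_zero
  have hk : (c.num * c.den : ℤ) = (c.num * c.den : ℤ).sign * (b ^ 2 * a : ℕ) := by
    rw [hab]
    exact (Int.sign_mul_natAbs _).symm
  have hk0 : (c.num * c.den : ℤ) ≠ 0 :=
    mul_ne_zero (Rat.num_ne_zero.2 hc) (by exact_mod_cast c.den_ne_zero)
  have hs : ((c.num * c.den : ℤ).sign).natAbs = 1 := Int.natAbs_sign_of_ne_zero hk0
  refine ⟨(c.num * c.den : ℤ).sign * a, ?_, ?_⟩
  · rw [← Int.squarefree_natAbs, Int.natAbs_mul, hs, one_mul, Int.natAbs_natCast]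
    exact ha
  · set s : ℤ := (c.num * c.den : ℤ).sign with hsdef
    have h1 : (c.num : ℚ) * c.den = s * ((b : ℚ) ^ 2 * a) := by exact_mod_cast hk
    have h2 : c = c.num / c.den := (Rat.num_div_den c).symm
    have h3 : c * (c.den * c.den) = s * ((b : ℚ) ^ 2 * a) := by
      rw [← h1]
      nth_rw 1 [h2]
      field_simp
    have h5 : ∀ D : ℚ, D ≠ 0 → c = s * ((b : ℚ) ^ 2 * a) / (D * D) →
        c * ((s * (a : ℤ) : ℤ) : ℚ) = s * a * b / D * (s * a * b / D) := by
      intro D hD h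
      rw [h]
      push_cast
      field_simp
    refine ⟨s * a * b / c.den, h5 _ hden ?_⟩
    rw [eq_div_iff (mul_ne_zero hden hden)]
    exact h3

/-- The image of a point over a field extension. -/
theorem loc_of (W : WeierstrassCurve ℚ) (e : Fin 3 → ℚ) (d : Fin 3 → ℤ)
    (P : W.toAffine.Point) (hP : ∀ i, Dl W e i ((d i : ℤ) : ℚ) P) (L : Type) [Field L]
    [Algebra ℚ L] : Loc W e d L := by
  have hinj : Function.Injective (algebraMap ℚ L) := (algebraMap ℚ L).injective
  rcases P with _ | ⟨x, y, h⟩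
  · refine ⟨.zero, fun i => ?_⟩
    have h1 : IsSquare ((d i : ℤ) : ℚ) := hP i
    have h2 := h1.map (algebraMap ℚ L)
    rw [map_intCast] at h2
    exact h2
  · refine ⟨.some (algebraMap ℚ L x) (algebraMap ℚ L y)
      ((WeierstrassCurve.Affine.map_nonsingular (W := W.toAffine) hinj x y).2 h), fun i => ?_⟩
    obtain ⟨h1, h2⟩ := hP i
    refine ⟨fun hx => ?_, fun hx => ?_⟩
    · have h3 := (h1 (fun h => hx (by rw [h]))).map (algebraMap ℚ L)
      rw [map_mul, map_sub, map_intCast] at h3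
      exact h3
    · have h3 := (h2 (hinj hx)).map (algebraMap ℚ L)
      rw [map_mul, map_mul, map_sub, map_sub, map_intCast] at h3
      exact h3

/-- **F_SLB**. -/
theorem slb (bas : BasStmt) (add : AddStmt) (ker : KerStmt) : SlbStmt := by
  intro _ W e hR he N hN S hS
  obtain ⟨b1, b2, b3, b4⟩ := bas ℚ W e hR he
  have key : ∀ P : W.toAffine.Point, ∃ d : Fin 3 → ℤ,
      (∀ i, Squarefree (d i)) ∧ ∀ i, Dl W e i ((d i : ℤ) : ℚ) P := by
    intro P
    have h1 : ∀ i, ∃ d : ℤ, Squarefree d ∧ Dl W e i (d : ℚ) P := by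
      intro i
      obtain ⟨c, hc, hcP⟩ := b1 i P
      obtain ⟨d, hd, hcd⟩ := sqf c hc
      refine ⟨d, hd, (b2 i c d P hc ?_ hcP).2 hcd⟩
      exact_mod_cast hd.ne_zero
    choose d hd hdP using h1
    exact ⟨d, hd, hdP⟩
  choose d hd hdP using key
  have hmem : ∀ P, d P ∈ Sel W e := by
    intro P
    refine ⟨hd P, ?_, fun p _ => loc_of W e (d P) P (hdP P) ℚ_[p], loc_of W e (d P) P (hdP P) ℝ⟩
    have h1 : IsSquare (((d P 0 * d P 1 * d P 2 : ℤ)) : ℚ) := by
      push_cast
      exact b3 P (fun i => ((d P i : ℤ) : ℚ)) (fun i =>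
        ⟨by exact_mod_cast (hd P i).ne_zero, hdP P i⟩)
    exact Rat.isSquare_intCast_iff.1 h1
  have hinj : Set.InjOn d S := by
    intro P hP Q hQ hPQ
    refine hS P hP Q hQ ?_
    have h1 : ∀ i, Dl W e i 1 (P + -Q) := by
      intro i
      have hne : ((d P i : ℤ) : ℚ) ≠ 0 := by exact_mod_cast (hd P i).ne_zero
      have h2 : Dl W e i ((d P i : ℤ) : ℚ) (-Q) := by
        have := hdP Q i
        rw [← hPQ] at this
        exact b4 i _ Q this
      have h3 := add ℚ W e hR he i _ _ P (-Q) hne hne (hdP P i) h2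
      refine (b2 i _ 1 _ (mul_ne_zero hne hne) one_ne_zero h3).2 ⟨((d P i : ℤ) : ℚ), ?_⟩
      rw [mul_one]
    obtain ⟨R, hR'⟩ := ker ℚ W e hR he (P + -Q) h1
    refine ⟨R, ?_⟩
    rw [← hR']
    abel
  have h1 : (S.image d).card = S.card := Finset.card_image_of_injOn hinj
  have h2 : ((S.image d : Finset (Fin 3 → ℤ)) : Set (Fin 3 → ℤ)) ⊆ Sel W e := by
    intro x hx
    obtain ⟨P, _, rfl⟩ := Finset.mem_image.1 (Finset.mem_coe.1 hx)
    exact hmem P
  have h3 := (Set.encard_le_encard h2).trans hN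
  rw [Set.encard_coe_eq_coe_finsetCard, h1] at h3
  exact_mod_cast h3

end

end Pool.Agent.GT.F.H17
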